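import Mathlib

set_option autoImplicit false

namespace Pool.Agent.Lib.MP_dae418_co

open Finset

variable {V : Type*} [Fintype V] [DecidableEq V]

open Classical in
/-- The outer vertex boundary of a vertex set. -/
noncomputable def nb (G : SimpleGraph V) (A : Finset V) : Finset V :=
  univ.filter (fun v => v ∉ A ∧ ∃ a ∈ A, G.Adj a v)

lemma mem_nb {G : SimpleGraph V} {A : Finset V} {v : V} :
    v ∈ nb G A ↔ v ∉ A ∧ ∃ a ∈ A, G.Adj a v := by
  simp [nb]

lemma nb_disjoint (G : SimpleGraph V) (A : Finset V) : Disjoint A (nb G A) := by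
  rw [Finset.disjoint_left]
  intro a ha h
  exact (mem_nb.1 h).1 ha

lemma mem_nb_mono {G : SimpleGraph V} {A B : Finset V} {v : V} (hAB : A ⊆ B)
    (hv : v ∈ nb G A) (hB : v ∉ B) : v ∈ nb G B := by
  obtain ⟨_, a, ha, hadj⟩ := mem_nb.1 hv
  exact mem_nb.2 ⟨hB, a, hAB ha, hadj⟩

/-- `k`-connectedness in terms of boundaries of vertex sets. -/
def KConn (G : SimpleGraph V) (k : ℕ) : Prop :=
  ∀ F : Finset V, F.Nonempty → (∃ z, z ∉ F ∧ z ∉ nb G F) → k ≤ (nb G F).card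

/-- `A` is a fragment with respect to `k`. -/
def Frag (G : SimpleGraph V) (k : ℕ) (A : Finset V) : Prop :=
  A.Nonempty ∧ (∃ z, z ∉ A ∧ z ∉ nb G A) ∧ (nb G A).card = k

/-- Every set of at most `l` vertices lies in the boundary of a fragment. -/
def Crit (G : SimpleGraph V) (k l : ℕ) : Prop :=
  ∀ X : Finset V, X.card ≤ l → ∃ F, Frag G k F ∧ X ⊆ nb G F

lemma card_uncross (A B S T : Finset V) (hA : Disjoint A S) (hB : Disjoint B T) :
    ((A ∩ T) ∪ (S ∩ T) ∪ (S ∩ B)).card + ((S ∪ T) \ (A ∪ B)).card = S.card + T.card := by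
  classical
  have key : ∀ X : Finset V, X.card = ∑ v : V, if v ∈ X then 1 else 0 := by
    intro X
    simp
  rw [key, key, key S, key T, ← Finset.sum_add_distrib, ← Finset.sum_add_distrib]
  refine Finset.sum_congr rfl ?_
  intro v _
  rw [Finset.disjoint_left] at hA hB
  have h1 := @hA v
  have h2 := @hB v
  by_cases a : v ∈ A <;> by_cases b : v ∈ B <;> by_cases c : v ∈ S <;> by_cases d : v ∈ T <;>
    simp_all

lemma nb_inter_subset (G : SimpleGraph V) (A B : Finset V) :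
    nb G (A ∩ B) ⊆ (A ∩ nb G B) ∪ (nb G A ∩ nb G B) ∪ (nb G A ∩ B) := by
  intro v hv
  obtain ⟨h1, a, ha, hadj⟩ := mem_nb.1 hv
  rw [Finset.mem_inter] at ha h1
  simp only [Finset.mem_union, Finset.mem_inter, mem_nb]
  by_cases hA : v ∈ A
  · by_cases hB : v ∈ B
    · exact absurd ⟨hA, hB⟩ h1
    · left; left
      exact ⟨hA, hB, a, ha.2, hadj⟩
  · by_cases hB : v ∈ B
    · right
      exact ⟨⟨hA, a, ha.1, hadj⟩, hB⟩
    · left; right
      exact ⟨⟨hA, a, ha.1, hadj⟩, hB, a, ha.2, hadj⟩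

lemma nb_union_subset (G : SimpleGraph V) (A B : Finset V) :
    nb G (A ∪ B) ⊆ (nb G A ∪ nb G B) \ (A ∪ B) := by
  intro v hv
  obtain ⟨h1, a, ha, hadj⟩ := mem_nb.1 hv
  rw [Finset.mem_union] at ha
  simp only [Finset.mem_union, Finset.mem_sdiff, mem_nb]
  simp only [Finset.mem_union, not_or] at h1
  refine ⟨?_, by simpa using h1⟩
  rcases ha with ha | ha
  · left; exact ⟨h1.1, a, ha, hadj⟩
  · right; exact ⟨h1.2, a, ha, hadj⟩

/-- Membership in the family of fragments containing `t` and avoiding `z`. -/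
def InL (G : SimpleGraph V) (k : ℕ) (t z : V) (A : Finset V) : Prop :=
  t ∈ A ∧ z ∉ A ∧ z ∉ nb G A ∧ (nb G A).card = k

section Lattice

variable {G : SimpleGraph V} {k : ℕ} {t z : V}

lemma InL.uncross (hk : KConn G k) {A B : Finset V} (hA : InL G k t z A) (hB : InL G k t z B) :
    InL G k t z (A ∩ B) ∧ InL G k t z (A ∪ B) ∧
      nb G (A ∩ B) = (A ∩ nb G B) ∪ (nb G A ∩ nb G B) ∪ (nb G A ∩ B) ∧
      nb G (A ∪ B) = (nb G A ∪ nb G B) \ (A ∪ B) := by
  obtain ⟨htA, hzA, hzA', hcA⟩ := hA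
  obtain ⟨htB, hzB, hzB', hcB⟩ := hB
  have s1 := nb_inter_subset G A B
  have s2 := nb_union_subset G A B
  have hz1 : z ∉ A ∩ B := fun h => hzA (Finset.mem_inter.1 h).1
  have hz2 : z ∉ nb G (A ∩ B) := by
    intro h
    have := s1 h
    simp only [Finset.mem_union, Finset.mem_inter] at this
    tauto
  have hz3 : z ∉ A ∪ B := by
    simp [hzA, hzB]
  have hz4 : z ∉ nb G (A ∪ B) := by
    intro h
    have := s2 h
    simp only [Finset.mem_union, Finset.mem_sdiff] at this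
    tauto
  have k1 : k ≤ (nb G (A ∩ B)).card :=
    hk _ ⟨t, Finset.mem_inter.2 ⟨htA, htB⟩⟩ ⟨z, hz1, hz2⟩
  have k2 : k ≤ (nb G (A ∪ B)).card :=
    hk _ ⟨t, Finset.mem_union.2 (Or.inl htA)⟩ ⟨z, hz3, hz4⟩
  have c1 := Finset.card_le_card s1
  have c2 := Finset.card_le_card s2
  have c3 := card_uncross A B (nb G A) (nb G B) (nb_disjoint G A) (nb_disjoint G B)
  have e1 : nb G (A ∩ B) = (A ∩ nb G B) ∪ (nb G A ∩ nb G B) ∪ (nb G A ∩ B) :=
    Finset.eq_of_subset_of_card_le s1 (by omega)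
  have e2 : nb G (A ∪ B) = (nb G A ∪ nb G B) \ (A ∪ B) :=
    Finset.eq_of_subset_of_card_le s2 (by omega)
  refine ⟨⟨Finset.mem_inter.2 ⟨htA, htB⟩, hz1, hz2, by omega⟩,
    ⟨Finset.mem_union.2 (Or.inl htA), hz3, hz4, by omega⟩, e1, e2⟩

lemma InL.inter (hk : KConn G k) {A B : Finset V} (hA : InL G k t z A) (hB : InL G k t z B) :
    InL G k t z (A ∩ B) := (hA.uncross hk hB).1

lemma InL.union (hk : KConn G k) {A B : Finset V} (hA : InL G k t z A) (hB : InL G k t z B) :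
    InL G k t z (A ∪ B) := (hA.uncross hk hB).2.1

lemma InL.mem_nb_inter (hk : KConn G k) {A B : Finset V} (hA : InL G k t z A)
    (hB : InL G k t z B) {x : V} (hx : x ∈ nb G A) (hx' : x ∈ B ∨ x ∈ nb G B) :
    x ∈ nb G (A ∩ B) := by
  rw [(hA.uncross hk hB).2.2.1]
  simp only [Finset.mem_union, Finset.mem_inter]
  tauto

end Lattice

end Pool.Agent.Lib.MP_dae418_co
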