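import Pool.Agent.Lib.MP_dae418_co.Lattice

set_option autoImplicit false

namespace Pool.Agent.Lib.MP_dae418_co

open Finset

variable {V : Type*} [Fintype V] [DecidableEq V]

open Classical in
/-- Vertices in the boundary of a small member of the lattice. -/
noncomputable def rr (G : SimpleGraph V) (k : ℕ) (t z : V) : Finset V :=
  univ.filter (fun x => ∃ A, InL G k t z A ∧ 2 * A.card ≤ k ∧ x ∈ nb G A)

/-- Good vertices at scale `g`. -/
def Good (G : SimpleGraph V) (k g : ℕ) (t z x : V) : Prop :=
  ∃ y ∈ rr G k t z, ∃ w ∈ rr G k t z, x ∈ lo G k t z y ∧ y ∈ lo G k t z w ∧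
    (lo G k t z w).card ≤ (lo G k t z x).card + g

open Classical in
/-- Bad vertices at scale `g`. -/
noncomputable def bad (G : SimpleGraph V) (k g : ℕ) (t z : V) : Finset V :=
  (rr G k t z).filter (fun x => ¬ Good G k g t z x)

open Classical in
/-- Vertices that lie together with `x` in the boundary of a small member of the lattice. -/
noncomputable def yy (G : SimpleGraph V) (k : ℕ) (t z x : V) : Finset V :=
  univ.filter (fun y => ∃ A, InL G k t z A ∧ 2 * A.card ≤ k ∧ x ∈ nb G A ∧ y ∈ nb G A)

section

variable {G : SimpleGraph V} {k : ℕ} {t z : V}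

lemma mem_rr {x : V} : x ∈ rr G k t z ↔ ∃ A, InL G k t z A ∧ 2 * A.card ≤ k ∧ x ∈ nb G A := by
  simp [rr]

lemma mem_yy {x y : V} :
    y ∈ yy G k t z x ↔ ∃ A, InL G k t z A ∧ 2 * A.card ≤ k ∧ x ∈ nb G A ∧ y ∈ nb G A := by
  simp [yy]

lemma bd_of_mem_rr {x : V} (hx : x ∈ rr G k t z) : Bd G k t z x := by
  obtain ⟨A, h1, _, h2⟩ := mem_rr.1 hx
  exact ⟨A, h1, h2⟩

lemma card_lo_of_mem_rr {x : V} (hx : x ∈ rr G k t z) : (lo G k t z x).card ≤ k / 2 := by
  obtain ⟨A, h1, h3, h2⟩ := mem_rr.1 hx
  have := Finset.card_le_card (lo_subset h1 h2)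
  omega

lemma card_rr_le (hk : KConn G k) : (rr G k t z).card ≤ k * (k / 2 + 1) := by
  classical
  have h := Finset.card_le_mul_card_image_of_maps_to (s := rr G k t z) (t := range (k / 2 + 1))
    (f := fun x => (lo G k t z x).card) (fun x hx => by
      have := card_lo_of_mem_rr hx
      simp only [Finset.mem_range]
      omega) k (fun b _ => by
      apply antichain_card hk
      · intro y hy
        exact bd_of_mem_rr (Finset.mem_filter.1 hy).1
      · intro y hy y' hy' hmem
        obtain ⟨hy1, hy2⟩ := Finset.mem_filter.1 hy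
        obtain ⟨hy1', hy2'⟩ := Finset.mem_filter.1 hy'
        have := Finset.card_lt_card
          ((bd_of_mem_rr hy1).lo_ssubset hk (bd_of_mem_rr hy1') hmem)
        omega)
  simpa using h

lemma card_bad_le (hk : KConn G k) {g : ℕ} (hg : 0 < g) :
    (bad G k g t z).card ≤ 2 * k * (k / 2 / g + 1) := by
  classical
  have h := Finset.card_le_mul_card_image_of_maps_to (s := bad G k g t z)
    (t := range (k / 2 / g + 1))
    (f := fun x => (lo G k t z x).card / g) (fun x hx => by
      have h1 := card_lo_of_mem_rr (Finset.mem_filter.1 hx).1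
      have h2 : (lo G k t z x).card / g ≤ k / 2 / g := Nat.div_le_div_right h1
      simp only [Finset.mem_range]
      omega) (2 * k) (fun b _ => by
      set W := (bad G k g t z).filter (fun x => (lo G k t z x).card / g = b) with hW
      have hWr : ∀ x ∈ W, x ∈ rr G k t z := fun x hx =>
        (Finset.mem_filter.1 (Finset.mem_filter.1 hx).1).1
      have hWb : ∀ x ∈ W, ¬ Good G k g t z x := fun x hx =>
        (Finset.mem_filter.1 (Finset.mem_filter.1 hx).1).2
      have hWd : ∀ x ∈ W, g * b ≤ (lo G k t z x).card ∧ (lo G k t z x).card < g * b + g := by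
        intro x hx
        have h1 : (lo G k t z x).card / g = b := (Finset.mem_filter.1 hx).2
        have h2 := Nat.div_add_mod (lo G k t z x).card g
        have h3 := Nat.mod_lt (lo G k t z x).card hg
        rw [h1] at h2
        omega
      have hsplit := Finset.card_filter_add_card_filter_not (s := W)
        (fun x => ∀ y ∈ W, x ∉ lo G k t z y)
      have c1 : (W.filter (fun x => ∀ y ∈ W, x ∉ lo G k t z y)).card ≤ k := by
        apply antichain_card hk
        · intro y hy
          exact bd_of_mem_rr (hWr y (Finset.mem_filter.1 hy).1)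
        · intro y hy y' hy'
          exact (Finset.mem_filter.1 hy).2 y' (Finset.mem_filter.1 hy').1
      have c2 : (W.filter (fun x => ¬ ∀ y ∈ W, x ∉ lo G k t z y)).card ≤ k := by
        apply antichain_card hk
        · intro y hy
          exact bd_of_mem_rr (hWr y (Finset.mem_filter.1 hy).1)
        · intro x hx y hy hmem
          obtain ⟨hx1, _⟩ := Finset.mem_filter.1 hx
          obtain ⟨hy1, hy2⟩ := Finset.mem_filter.1 hy
          push Not at hy2
          obtain ⟨w, hw1, hw2⟩ := hy2
          apply hWb x hx1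
          refine ⟨y, hWr y hy1, w, hWr w hw1, hmem, hw2, ?_⟩
          have a1 := hWd x hx1
          have a2 := hWd w hw1
          omega
      omega)
  simpa using h

lemma card_yy_le (hk : KConn G k) {g : ℕ} {x : V} (hx : x ∈ rr G k t z)
    (hgood : Good G k g t z x) :
    (yy G k t z x).card ≤ k + 2 * g * (k / 2 + 1) := by
  classical
  have hxB := bd_of_mem_rr hx
  obtain ⟨y, hy, w, hw, hxy, hyw, hcard⟩ := hgood
  have hyB := bd_of_mem_rr hy
  have hwB := bd_of_mem_rr hw
  set D := lo G k t z x with hD
  set E := hi G k t z x with hE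
  have hDL : InL G k t z D := hxB.lo hk
  have hEL : InL G k t z E := hxB.hi hk
  -- the key estimate with C = lo w
  have hDw : D ⊆ lo G k t z w :=
    ((hxB.lo_ssubset hk hyB hxy).1).trans ((hyB.lo_ssubset hk hwB hyw).1)
  have hr := key_estimate hk hxB hyB hxy (hwB.lo hk) hyw hDw
  have hr' : (E ∩ nb G D).card ≤ 2 * g := by
    have h1 : (lo G k t z w \ D).card = (lo G k t z w).card - D.card :=
      Finset.card_sdiff_of_subset hDw
    rw [← hD, ← hE] at hr
    omega
  set Q := nb G D \ E with hQ
  have hQcard : Q.card + (E ∩ nb G D).card = k := by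
    have := Finset.card_sdiff_add_card_inter (nb G D) E
    rw [Finset.inter_comm] at this
    rw [hQ, this]
    exact hDL.2.2.2
  -- levels
  have h := Finset.card_le_mul_card_image_of_maps_to (s := yy G k t z x \ Q)
    (t := range (k / 2 + 1))
    (f := fun y => (D ∪ lo G k t z y).card) (fun v hv => by
      obtain ⟨A, hA, hA2, hxA, hvA⟩ := mem_yy.1 (Finset.mem_sdiff.1 hv).1
      have h1 : D ∪ lo G k t z v ⊆ A := Finset.union_subset (lo_subset hA hxA) (lo_subset hA hvA)
      have h2 := Finset.card_le_card h1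
      simp only [Finset.mem_range]
      omega) (2 * g) (fun b _ => by
      set Y := (yy G k t z x \ Q).filter (fun y => (D ∪ lo G k t z y).card = b) with hY
      have hYy : ∀ v ∈ Y, v ∈ yy G k t z x := fun v hv =>
        (Finset.mem_sdiff.1 (Finset.mem_filter.1 hv).1).1
      have hYQ : ∀ v ∈ Y, v ∉ Q := fun v hv =>
        (Finset.mem_sdiff.1 (Finset.mem_filter.1 hv).1).2
      have hYb : ∀ v ∈ Y, (D ∪ lo G k t z v).card = b := fun v hv =>
        (Finset.mem_filter.1 hv).2
      have hYBd : ∀ v ∈ Y, Bd G k t z v := by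
        intro v hv
        obtain ⟨A, hA, hA2, hxA, hvA⟩ := mem_yy.1 (hYy v hv)
        exact ⟨A, hA, hvA⟩
      have hYD : ∀ v ∈ Y, v ∉ D := by
        intro v hv
        obtain ⟨A, hA, hA2, hxA, hvA⟩ := mem_yy.1 (hYy v hv)
        exact fun h => (mem_nb.1 hvA).1 (lo_subset hA hxA h)
      have hYE : ∀ v ∈ Y, lo G k t z v ⊆ E := by
        intro v hv
        obtain ⟨A, hA, hA2, hxA, hvA⟩ := mem_yy.1 (hYy v hv)
        exact (lo_subset hA hvA).trans (subset_hi hA hxA)
      have hanti : ∀ v ∈ Y, ∀ v' ∈ Y, v ∉ lo G k t z v' := by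
        intro v hv v' hv' hmem
        have h1 := (hYBd v hv).lo_ssubset hk (hYBd v' hv') hmem
        have h2 : D ∪ lo G k t z v ⊂ D ∪ lo G k t z v' := by
          refine ⟨Finset.union_subset_union_right h1.1, fun hcon => ?_⟩
          have h3 := hcon (Finset.mem_union.2 (Or.inr hmem))
          rcases Finset.mem_union.1 h3 with h3 | h3
          · exact hYD v hv h3
          · exact (hYBd v hv).notMem_lo hk h3
        have h4 := Finset.card_lt_card h2
        rw [hYb v hv, hYb v' hv'] at h4
        exact lt_irrefl _ h4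
      obtain ⟨hBL, hYsub⟩ := antichain hk hDL Y hYBd hYD hanti
      set B := D ∪ Y.biUnion (lo G k t z) with hB
      have hBE : B ⊆ E := by
        apply Finset.union_subset (hxB.lo_subset_hi hk)
        intro v hv
        obtain ⟨u, hu, huv⟩ := Finset.mem_biUnion.1 hv
        exact hYE u hu huv
      have hQB : Q ⊆ nb G B := by
        intro v hv
        obtain ⟨hv1, hv2⟩ := Finset.mem_sdiff.1 hv
        exact mem_nb_mono Finset.subset_union_left hv1 (fun h => hv2 (hBE h))
      have hYsub' : Y ⊆ nb G B \ Q := fun v hv =>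
        Finset.mem_sdiff.2 ⟨hYsub hv, hYQ v hv⟩
      have c1 := Finset.card_le_card hYsub'
      have c2 := Finset.card_sdiff_add_card_eq_card hQB
      have c3 := hBL.2.2.2
      omega)
  have c4 : (yy G k t z x).card ≤ Q.card + (yy G k t z x \ Q).card := by
    have : yy G k t z x ⊆ Q ∪ (yy G k t z x \ Q) := by
      intro v hv
      by_cases hvQ : v ∈ Q
      · exact Finset.mem_union.2 (Or.inl hvQ)
      · exact Finset.mem_union.2 (Or.inr (Finset.mem_sdiff.2 ⟨hv, hvQ⟩))
    exact (Finset.card_le_card this).trans (Finset.card_union_le _ _)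
  rw [Finset.card_range] at h
  omega

open Classical in
/-- Tuples inside the boundary of a small member of the lattice. -/
noncomputable def tup (G : SimpleGraph V) (k : ℕ) (t z : V) (m : ℕ) : Finset (Fin m → V) :=
  univ.filter (fun s => ∃ A, InL G k t z A ∧ 2 * A.card ≤ k ∧ ∀ i, s i ∈ nb G A)

lemma card_tup_le {g : ℕ} (m b c r : ℕ)
    (hb : (bad G k g t z).card ≤ b) (hr : (rr G k t z).card ≤ r)
    (hc : ∀ x ∈ rr G k t z, Good G k g t z x → (yy G k t z x).card ≤ c) :
    (tup G k t z (m + 1)).card ≤ b ^ (m + 1) + (m + 1) * (r * c ^ m) := by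
  classical
  have hsub : tup G k t z (m + 1) ⊆
      Fintype.piFinset (fun _ : Fin (m + 1) => bad G k g t z) ∪
      (univ : Finset (Fin (m + 1))).biUnion (fun i =>
        ((rr G k t z).filter (fun x => Good G k g t z x)).biUnion (fun x =>
          Fintype.piFinset (fun j : Fin (m + 1) => if j = i then {x} else yy G k t z x))) := by
    intro s hs
    simp only [tup, Finset.mem_filter, Finset.mem_univ, true_and] at hs
    obtain ⟨A, hA, hA2, hsA⟩ := hs
    have hsr : ∀ i, s i ∈ rr G k t z := fun i => mem_rr.2 ⟨A, hA, hA2, hsA i⟩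
    by_cases hall : ∀ i, s i ∈ bad G k g t z
    · exact Finset.mem_union.2 (Or.inl (Fintype.mem_piFinset.2 hall))
    · push Not at hall
      obtain ⟨i, hi⟩ := hall
      have hgood : Good G k g t z (s i) := by
        by_contra hng
        exact hi (Finset.mem_filter.2 ⟨hsr i, hng⟩)
      refine Finset.mem_union.2 (Or.inr (Finset.mem_biUnion.2 ⟨i, Finset.mem_univ _,
        Finset.mem_biUnion.2 ⟨s i, Finset.mem_filter.2 ⟨hsr i, hgood⟩, ?_⟩⟩))
      rw [Fintype.mem_piFinset]
      intro j
      by_cases hj : j = i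
      · simp [hj]
      · rw [if_neg hj]
        exact mem_yy.2 ⟨A, hA, hA2, hsA i, hsA j⟩
  have c1 : (Fintype.piFinset (fun _ : Fin (m + 1) => bad G k g t z)).card ≤ b ^ (m + 1) := by
    rw [Fintype.card_piFinset]
    simp only [Finset.prod_const, Finset.card_univ, Fintype.card_fin]
    exact Nat.pow_le_pow_left hb _
  have c2 : ∀ i : Fin (m + 1), ∀ x ∈ (rr G k t z).filter (fun x => Good G k g t z x),
      (Fintype.piFinset (fun j : Fin (m + 1) => if j = i then {x} else yy G k t z x)).card
        ≤ c ^ m := by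
    intro i x hx
    obtain ⟨hx1, hx2⟩ := Finset.mem_filter.1 hx
    rw [Fintype.card_piFinset, Fin.prod_univ_succAbove _ i]
    simp only [if_true, Finset.card_singleton, one_mul, Fin.succAbove_ne, if_false,
      Finset.prod_const, Finset.card_univ, Fintype.card_fin]
    exact Nat.pow_le_pow_left (hc x hx1 hx2) _
  have c3 : ∀ i : Fin (m + 1),
      (((rr G k t z).filter (fun x => Good G k g t z x)).biUnion (fun x =>
          Fintype.piFinset (fun j : Fin (m + 1) => if j = i then {x} else yy G k t z x))).card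
        ≤ r * c ^ m := by
    intro i
    refine (Finset.card_biUnion_le_card_mul _ _ (c ^ m) (c2 i)).trans ?_
    exact Nat.mul_le_mul_right _ ((Finset.card_filter_le _ _).trans hr)
  have c4 := Finset.card_biUnion_le_card_mul (univ : Finset (Fin (m + 1))) (fun i =>
        ((rr G k t z).filter (fun x => Good G k g t z x)).biUnion (fun x =>
          Fintype.piFinset (fun j : Fin (m + 1) => if j = i then {x} else yy G k t z x)))
        (r * c ^ m) (fun i _ => c3 i)
  rw [Finset.card_univ, Fintype.card_fin] at c4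
  calc (tup G k t z (m + 1)).card ≤ _ := Finset.card_le_card hsub
    _ ≤ _ := Finset.card_union_le _ _
    _ ≤ _ := Nat.add_le_add c1 c4

end

/-- Pigeonhole over the pairs `(t, z)`. -/
lemma pigeonhole {G : SimpleGraph V} {k l m : ℕ} (hk : KConn G k) (hc : Crit G k l)
    (hm : m + 1 ≤ l) (N : ℕ) (hN : ∀ t z, (tup G k t z m).card ≤ N) :
    Fintype.card V ^ m ≤ Fintype.card V * Fintype.card V * N := by
  classical
  have hsub : (univ : Finset (Fin m → V)) ⊆
      (univ : Finset (V × V)).biUnion (fun p => tup G k p.1 p.2 m) := by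
    intro s _
    have hS : (univ.image s).card + 1 ≤ l := by
      have : (univ.image s).card ≤ m := by
        simpa using (Finset.card_image_le (s := (univ : Finset (Fin m))) (f := s))
      omega
    obtain ⟨A, hA, hSA, hA2⟩ := exists_small_fragment hk hc _ hS
    obtain ⟨⟨t, ht⟩, ⟨z, hz1, hz2⟩, hcA⟩ := hA
    refine Finset.mem_biUnion.2 ⟨(t, z), Finset.mem_univ _, ?_⟩
    simp only [tup, Finset.mem_filter, Finset.mem_univ, true_and]
    exact ⟨A, ⟨ht, hz1, hz2, hcA⟩, hA2, fun i => hSA (Finset.mem_image_of_mem _ (Finset.mem_univ i))⟩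
  have h1 := Finset.card_le_card hsub
  have h2 := Finset.card_biUnion_le_card_mul (univ : Finset (V × V))
    (fun p => tup G k p.1 p.2 m) N (fun p _ => hN p.1 p.2)
  simp only [Finset.card_univ, Fintype.card_prod, Fintype.card_fun, Fintype.card_fin] at h1 h2
  exact h1.trans h2

end Pool.Agent.Lib.MP_dae418_co
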