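import Pool.Agent.Lib.MP_dae418_co.Mader

set_option autoImplicit false

namespace Pool.Agent.Lib.MP_dae418_co

open Finset

variable {V : Type*} [Fintype V] [DecidableEq V]

lemma exists_least (P : Finset V → Prop) (hne : ∃ A, P A)
    (hcl : ∀ A B, P A → P B → P (A ∩ B)) : ∃ D, P D ∧ ∀ B, P B → D ⊆ B := by
  classical
  obtain ⟨A0, hA0⟩ := hne
  obtain ⟨D, hD, hmin⟩ := Finset.exists_min_image
    (univ.filter (fun A : Finset V => P A)) Finset.card ⟨A0, by simp [hA0]⟩
  simp only [Finset.mem_filter, Finset.mem_univ, true_and] at hD hmin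
  refine ⟨D, hD, fun B hB => ?_⟩
  have h1 := hmin _ (hcl D B hD hB)
  have h2 : D ∩ B = D := Finset.eq_of_subset_of_card_le Finset.inter_subset_left h1
  rw [← h2]
  exact Finset.inter_subset_right

lemma exists_greatest (P : Finset V → Prop) (hne : ∃ A, P A)
    (hcl : ∀ A B, P A → P B → P (A ∪ B)) : ∃ D, P D ∧ ∀ B, P B → B ⊆ D := by
  classical
  obtain ⟨A0, hA0⟩ := hne
  obtain ⟨D, hD, hmax⟩ := Finset.exists_max_image
    (univ.filter (fun A : Finset V => P A)) Finset.card ⟨A0, by simp [hA0]⟩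
  simp only [Finset.mem_filter, Finset.mem_univ, true_and] at hD hmax
  refine ⟨D, hD, fun B hB => ?_⟩
  have h1 := hmax _ (hcl D B hD hB)
  have h2 : D = D ∪ B := Finset.eq_of_subset_of_card_le Finset.subset_union_left h1
  rw [h2]
  exact Finset.subset_union_right

open Classical in
/-- Least member of the lattice whose boundary contains `x` (when there is one). -/
noncomputable def lo (G : SimpleGraph V) (k : ℕ) (t z x : V) : Finset V :=
  univ.filter (fun v => ∀ A, InL G k t z A → x ∈ nb G A → v ∈ A)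

open Classical in
/-- Greatest member of the lattice whose boundary contains `x` (when there is one). -/
noncomputable def hi (G : SimpleGraph V) (k : ℕ) (t z x : V) : Finset V :=
  univ.filter (fun v => ∃ A, InL G k t z A ∧ x ∈ nb G A ∧ v ∈ A)

section

variable {G : SimpleGraph V} {k : ℕ} {t z : V}

lemma lo_subset {x : V} {A : Finset V} (hA : InL G k t z A) (hx : x ∈ nb G A) :
    lo G k t z x ⊆ A := by
  intro v hv
  simp only [lo, Finset.mem_filter, Finset.mem_univ, true_and] at hv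
  exact hv A hA hx

lemma subset_hi {x : V} {A : Finset V} (hA : InL G k t z A) (hx : x ∈ nb G A) :
    A ⊆ hi G k t z x := by
  intro v hv
  simp only [hi, Finset.mem_filter, Finset.mem_univ, true_and]
  exact ⟨A, hA, hx, hv⟩

lemma lo_spec (hk : KConn G k) {x : V} {A : Finset V} (hA : InL G k t z A) (hx : x ∈ nb G A) :
    InL G k t z (lo G k t z x) ∧ x ∈ nb G (lo G k t z x) := by
  obtain ⟨D, ⟨hD1, hD2⟩, hD3⟩ := exists_least (fun B => InL G k t z B ∧ x ∈ nb G B) ⟨A, hA, hx⟩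
    (fun A B h1 h2 => ⟨h1.1.inter hk h2.1, h1.1.mem_nb_inter hk h2.1 h1.2 (Or.inr h2.2)⟩)
  have e : lo G k t z x = D := by
    apply Finset.Subset.antisymm (lo_subset hD1 hD2)
    intro v hv
    simp only [lo, Finset.mem_filter, Finset.mem_univ, true_and]
    intro B hB hxB
    exact hD3 B ⟨hB, hxB⟩ hv
  rw [e]
  exact ⟨hD1, hD2⟩

lemma mem_nb_union' {A B : Finset V} {x : V} (h1 : x ∈ nb G A) (h2 : x ∉ A ∪ B) :
    x ∈ nb G (A ∪ B) := mem_nb_mono Finset.subset_union_left h1 h2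

lemma hi_spec (hk : KConn G k) {x : V} {A : Finset V} (hA : InL G k t z A) (hx : x ∈ nb G A) :
    InL G k t z (hi G k t z x) ∧ x ∈ nb G (hi G k t z x) := by
  obtain ⟨D, ⟨hD1, hD2⟩, hD3⟩ := exists_greatest (fun B => InL G k t z B ∧ x ∈ nb G B) ⟨A, hA, hx⟩
    (fun A B h1 h2 => ⟨h1.1.union hk h2.1, mem_nb_union' h1.2 (by
      have a1 := (mem_nb.1 h1.2).1
      have a2 := (mem_nb.1 h2.2).1
      simp [a1, a2])⟩)
  have e : hi G k t z x = D := by
    apply Finset.Subset.antisymm _ (subset_hi hD1 hD2)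
    intro v hv
    simp only [hi, Finset.mem_filter, Finset.mem_univ, true_and] at hv
    obtain ⟨B, hB, hxB, hvB⟩ := hv
    exact hD3 B ⟨hB, hxB⟩ hvB
  rw [e]
  exact ⟨hD1, hD2⟩

/-- `x` lies in the boundary of a member of the lattice. -/
def Bd (G : SimpleGraph V) (k : ℕ) (t z x : V) : Prop := ∃ A, InL G k t z A ∧ x ∈ nb G A

lemma Bd.lo (hk : KConn G k) {x : V} (hx : Bd G k t z x) : InL G k t z (lo G k t z x) := by
  obtain ⟨A, hA, hxA⟩ := hx
  exact (lo_spec hk hA hxA).1

lemma Bd.mem_lo (hk : KConn G k) {x : V} (hx : Bd G k t z x) : x ∈ nb G (MP_dae418_co.lo G k t z x) := by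
  obtain ⟨A, hA, hxA⟩ := hx
  exact (lo_spec hk hA hxA).2

lemma Bd.hi (hk : KConn G k) {x : V} (hx : Bd G k t z x) : InL G k t z (hi G k t z x) := by
  obtain ⟨A, hA, hxA⟩ := hx
  exact (hi_spec hk hA hxA).1

lemma Bd.mem_hi (hk : KConn G k) {x : V} (hx : Bd G k t z x) : x ∈ nb G (MP_dae418_co.hi G k t z x) := by
  obtain ⟨A, hA, hxA⟩ := hx
  exact (hi_spec hk hA hxA).2

lemma Bd.lo_subset_hi (hk : KConn G k) {x : V} (hx : Bd G k t z x) :
    MP_dae418_co.lo G k t z x ⊆ MP_dae418_co.hi G k t z x :=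
  subset_hi (hx.lo hk) (hx.mem_lo hk)

/-- If `x` is a boundary vertex and `x ∈ B` for a member `B` of the lattice, then
`lo x ⊆ B`. -/
lemma Bd.lo_subset_of_mem (hk : KConn G k) {x : V} (hx : Bd G k t z x) {B : Finset V}
    (hB : InL G k t z B) (hxB : x ∈ B) : MP_dae418_co.lo G k t z x ⊆ B := by
  have h1 := (hx.lo hk).inter hk hB
  have h2 := (hx.lo hk).mem_nb_inter hk hB (hx.mem_lo hk) (Or.inl hxB)
  exact (lo_subset h1 h2).trans Finset.inter_subset_right

lemma Bd.notMem_lo (hk : KConn G k) {x : V} (hx : Bd G k t z x) :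
    x ∉ MP_dae418_co.lo G k t z x := (mem_nb.1 (hx.mem_lo hk)).1

/-- If `x ∈ lo y` then `lo x` is a proper subset of `lo y`. -/
lemma Bd.lo_ssubset (hk : KConn G k) {x y : V} (hx : Bd G k t z x) (hy : Bd G k t z y)
    (hxy : x ∈ MP_dae418_co.lo G k t z y) : MP_dae418_co.lo G k t z x ⊂ MP_dae418_co.lo G k t z y :=
  ⟨hx.lo_subset_of_mem hk (hy.lo hk) hxy, fun h => hx.notMem_lo hk (h hxy)⟩

/-- union of a lattice member with the `lo`s of a set of boundary vertices. -/
lemma union_biUnion_lo (hk : KConn G k) {B : Finset V} (hB : InL G k t z B) (Y : Finset V)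
    (hY : ∀ y ∈ Y, Bd G k t z y) : InL G k t z (B ∪ Y.biUnion (lo G k t z)) := by
  induction Y using Finset.induction_on with
  | empty => simpa using hB
  | insert a s _ ih =>
    have h1 := ih (fun y hy => hY y (Finset.mem_insert_of_mem hy))
    have h2 := (hY a (Finset.mem_insert_self _ _)).lo hk
    have h3 := h1.union hk h2
    have e : B ∪ (insert a s).biUnion (lo G k t z) = B ∪ s.biUnion (lo G k t z) ∪ lo G k t z a := by
      rw [Finset.biUnion_insert]
      ext v
      simp only [Finset.mem_union]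
      tauto
    rw [e]
    exact h3

/-- Antichain lemma, relative form. -/
lemma antichain (hk : KConn G k) {B : Finset V} (hB : InL G k t z B) (Y : Finset V)
    (hY : ∀ y ∈ Y, Bd G k t z y) (hYB : ∀ y ∈ Y, y ∉ B)
    (hanti : ∀ y ∈ Y, ∀ y' ∈ Y, y ∉ lo G k t z y') :
    InL G k t z (B ∪ Y.biUnion (lo G k t z)) ∧ Y ⊆ nb G (B ∪ Y.biUnion (lo G k t z)) := by
  refine ⟨union_biUnion_lo hk hB Y hY, fun y hy => ?_⟩
  have h1 := (hY y hy).mem_lo hk
  refine mem_nb_mono ?_ h1 ?_
  · exact (Finset.subset_biUnion_of_mem (lo G k t z) hy).trans Finset.subset_union_right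
  · simp only [Finset.mem_union, Finset.mem_biUnion, not_or, not_exists, not_and]
    exact ⟨hYB y hy, fun y' hy' => hanti y hy y' hy'⟩

lemma antichain_card (hk : KConn G k) (Y : Finset V)
    (hY : ∀ y ∈ Y, Bd G k t z y)
    (hanti : ∀ y ∈ Y, ∀ y' ∈ Y, y ∉ lo G k t z y') : Y.card ≤ k := by
  rcases Y.eq_empty_or_nonempty with rfl | ⟨y0, hy0⟩
  · simp
  · have h := antichain hk ((hY y0 hy0).lo hk) Y hY (fun y hy => hanti y hy y0 hy0) hanti
    calc Y.card ≤ _ := Finset.card_le_card h.2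
      _ = k := h.1.2.2.2

/-- Key estimate: if `x ∈ lo y` and `y` lies in a member `C` of the lattice, then few vertices of
the boundary of `lo x` lie in `hi x`. -/
lemma key_estimate (hk : KConn G k) {x y : V} (hx : Bd G k t z x) (hy : Bd G k t z y)
    (hxy : x ∈ lo G k t z y) {C : Finset V} (hC : InL G k t z C) (hyC : y ∈ C)
    (hxC : lo G k t z x ⊆ C) :
    (hi G k t z x ∩ nb G (lo G k t z x)).card ≤ 2 * (C \ lo G k t z x).card := by
  set D := lo G k t z x with hD
  set E := hi G k t z x with hE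
  have hDL : InL G k t z D := hx.lo hk
  have hEL : InL G k t z E := hx.hi hk
  have hDE : D ⊆ E := hx.lo_subset_hi hk
  have hxE : x ∉ E := (mem_nb.1 (hx.mem_hi hk)).1
  -- y is outside E and its boundary
  have hyE : y ∉ E := fun h => hxE ((hy.lo_subset_of_mem hk hEL h) hxy)
  have hyE' : y ∉ nb G E := fun h => hxE ((lo_subset hEL h) hxy)
  have hyD : y ∉ D := fun h => hyE (hDE h)
  have hyD' : y ∉ nb G D := fun h => hyE' (mem_nb_mono hDE h hyE)
  -- degree of y
  have hnbr : ∀ v, v ∈ nb G {y} ↔ G.Adj y v := by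
    intro v
    rw [mem_nb]
    simp only [Finset.mem_singleton, exists_eq_left]
    exact ⟨fun h => h.2, fun h => ⟨fun e => by rw [e] at h; exact G.irrefl h, h⟩⟩
  have hnoadjE : ∀ v ∈ E, ¬ G.Adj y v := by
    intro v hv h
    exact hyE' (mem_nb.2 ⟨hyE, v, hv, h.symm⟩)
  have hdeg : k ≤ (nb G {y}).card := by
    apply hk _ ⟨y, Finset.mem_singleton_self _⟩
    refine ⟨t, ?_, ?_⟩
    · simp only [Finset.mem_singleton]
      intro e
      exact hyD (e ▸ hDL.1)
    · rw [hnbr]
      exact hnoadjE t (hDE hDL.1)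
  -- neighbours of y
  have hsub1 : nb G {y} ⊆ (C \ D) ∪ (nb G C ∩ nb G {y}) := by
    intro v hv
    have hadj := (hnbr v).1 hv
    by_cases hvC : v ∈ C
    · refine Finset.mem_union.2 (Or.inl (Finset.mem_sdiff.2 ⟨hvC, fun h => ?_⟩))
      exact hnoadjE v (hDE h) hadj
    · refine Finset.mem_union.2 (Or.inr (Finset.mem_inter.2 ⟨mem_nb.2 ⟨hvC, y, hyC, hadj⟩, hv⟩))
  have c1 : (nb G {y}).card ≤ (C \ D).card + (nb G C ∩ nb G {y}).card :=
    (Finset.card_le_card hsub1).trans (Finset.card_union_le _ _)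
  have hsub2 : E ∩ nb G D ⊆ (C \ D) ∪ (nb G C \ nb G {y}) := by
    intro v hv
    obtain ⟨hvE, hvD⟩ := Finset.mem_inter.1 hv
    by_cases hvC : v ∈ C
    · exact Finset.mem_union.2 (Or.inl (Finset.mem_sdiff.2 ⟨hvC, (mem_nb.1 hvD).1⟩))
    · refine Finset.mem_union.2 (Or.inr (Finset.mem_sdiff.2 ⟨mem_nb_mono hxC hvD hvC, ?_⟩))
      rw [hnbr]
      exact hnoadjE v hvE
  have c2 : (E ∩ nb G D).card ≤ (C \ D).card + (nb G C \ nb G {y}).card :=
    (Finset.card_le_card hsub2).trans (Finset.card_union_le _ _)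
  have c3 := Finset.card_sdiff_add_card_inter (nb G C) (nb G {y})
  have c4 := hC.2.2.2
  omega

end

end Pool.Agent.Lib.MP_dae418_co
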