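import Pool.Agent.Lib.MP_dae418_co.Basic

set_option autoImplicit false

namespace Pool.Agent.Lib.MP_dae418_co

open Finset

variable {V : Type*} [Fintype V] [DecidableEq V]

lemma three_split (X F T : Finset V) (h : Disjoint F T) :
    X.card = (X ∩ F).card + (X ∩ T).card + (X ∩ (F ∪ T)ᶜ).card := by
  classical
  have key : ∀ Y : Finset V, Y.card = ∑ v : V, if v ∈ Y then 1 else 0 := by
    intro Y
    simp
  rw [key, key (X ∩ F), key (X ∩ T), key (X ∩ (F ∪ T)ᶜ), ← Finset.sum_add_distrib,
    ← Finset.sum_add_distrib]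
  refine Finset.sum_congr rfl ?_
  intro v _
  rw [Finset.disjoint_left] at h
  have h1 := @h v
  by_cases a : v ∈ X <;> by_cases b : v ∈ F <;> by_cases c : v ∈ T <;> simp_all

/-- The complementary fragment. -/
noncomputable def co (G : SimpleGraph V) (F : Finset V) : Finset V := (F ∪ nb G F)ᶜ

lemma nb_co_subset (G : SimpleGraph V) (F : Finset V) : nb G (co G F) ⊆ nb G F := by
  intro v hv
  obtain ⟨h1, a, ha, hadj⟩ := mem_nb.1 hv
  simp only [co, Finset.mem_compl, Finset.mem_union, not_or, not_and, not_not] at h1 ha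
  by_cases hF : v ∈ F
  · exact absurd (mem_nb.2 ⟨ha.1, v, hF, hadj.symm⟩) ha.2
  · exact h1 hF

lemma Frag.co {G : SimpleGraph V} {k : ℕ} (hk : KConn G k) {F : Finset V} (hF : Frag G k F) :
    Frag G k (co G F) ∧ nb G (co G F) = nb G F ∧ MP_dae418_co.co G (MP_dae418_co.co G F) = F := by
  obtain ⟨⟨f, hf⟩, ⟨z, hz1, hz2⟩, hc⟩ := hF
  have hsub := nb_co_subset G F
  have hne : (MP_dae418_co.co G F).Nonempty := ⟨z, by simp [MP_dae418_co.co, hz1, hz2]⟩
  have hf1 : f ∉ MP_dae418_co.co G F := by simp [MP_dae418_co.co, hf]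
  have hf2 : f ∉ nb G (MP_dae418_co.co G F) := fun h =>
    (Finset.disjoint_left.1 (nb_disjoint G F) hf) (hsub h)
  have h1 := hk _ hne ⟨f, hf1, hf2⟩
  have e : nb G (MP_dae418_co.co G F) = nb G F :=
    Finset.eq_of_subset_of_card_le hsub (by omega)
  refine ⟨⟨hne, ⟨f, hf1, hf2⟩, by rw [e, hc]⟩, e, ?_⟩
  rw [MP_dae418_co.co, e]
  ext v
  simp only [MP_dae418_co.co, Finset.mem_compl, Finset.mem_union, not_or, not_and, not_not]
  constructor
  · rintro ⟨h1, h2⟩
    by_contra h3
    exact h2 (h1 h3)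
  · intro h
    exact ⟨fun h3 => absurd h h3, Finset.disjoint_left.1 (nb_disjoint G F) h⟩

/-- Main step: a smallest fragment `A` whose boundary contains `S` does not meet `F₁`, when the
boundary of `F₁` contains `S` and meets `A`, and the complementary fragment of `F₁` is not smaller
than `A`. -/
lemma atom_inter_empty {G : SimpleGraph V} {k : ℕ} (hk : KConn G k) {S A F : Finset V} {a : V}
    (hA : Frag G k A) (hSA : S ⊆ nb G A)
    (hmin : ∀ B, Frag G k B → S ⊆ nb G B → A.card ≤ B.card)
    (haA : a ∈ A) (hF : Frag G k F) (hSF : S ⊆ nb G F) (haF : a ∈ nb G F) :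
    A ∩ F = ∅ := by
  by_contra hne
  have hne : (A ∩ F).Nonempty := Finset.nonempty_iff_ne_empty.2 hne
  obtain ⟨hFco, hFnb, _⟩ := hF.co hk
  have hle : A.card ≤ (co G F).card := hmin _ hFco (by rw [hFnb]; exact hSF)
  have s1 := nb_inter_subset G A F
  have s2 := nb_union_subset G A F
  have c3 := card_uncross A F (nb G A) (nb G F) (nb_disjoint G A) (nb_disjoint G F)
  have hcA := hA.2.2
  have hcF := hF.2.2
  obtain ⟨z, hz1, hz2⟩ := hA.2.1
  have hzz : z ∉ A ∩ F ∧ z ∉ nb G (A ∩ F) := by
    constructor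
    · intro h; exact hz1 (Finset.mem_inter.1 h).1
    · intro h
      have := s1 h
      simp only [Finset.mem_union, Finset.mem_inter] at this
      tauto
  have k1 := hk _ hne ⟨z, hzz⟩
  have c1 := Finset.card_le_card s1
  by_cases hW : ((A ∩ nb G F) ∪ (nb G A ∩ nb G F) ∪ (nb G A ∩ F)).card ≤ k
  · -- smaller fragment
    have e1 : nb G (A ∩ F) = (A ∩ nb G F) ∪ (nb G A ∩ nb G F) ∪ (nb G A ∩ F) :=
      Finset.eq_of_subset_of_card_le s1 (by omega)
    have hfr : Frag G k (A ∩ F) := ⟨hne, ⟨z, hzz⟩, by rw [e1] at k1 ⊢; omega⟩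
    have hS' : S ⊆ nb G (A ∩ F) := by
      intro v hv
      rw [e1]
      have h1 := hSA hv
      have h2 := hSF hv
      simp only [Finset.mem_union, Finset.mem_inter]
      tauto
    have h3 := hmin _ hfr hS'
    have h4 : (A ∩ F).card < A.card := by
      apply Finset.card_lt_card
      refine ⟨Finset.inter_subset_left, fun h => ?_⟩
      have := h haA
      exact (Finset.disjoint_left.1 (nb_disjoint G F) (Finset.mem_inter.1 this).2) haF
    omega
  · -- the opposite corner is empty
    have hW2 : ((nb G A ∪ nb G F) \ (A ∪ F)).card < k := by omega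
    have c2 := Finset.card_le_card s2
    have hall : ∀ w, w ∈ A ∪ F ∨ w ∈ nb G (A ∪ F) := by
      intro w
      by_contra hw
      push Not at hw
      have := hk (A ∪ F) ⟨a, Finset.mem_union.2 (Or.inl haA)⟩ ⟨w, hw.1, hw.2⟩
      omega
    -- corner empty
    have hcorner : (co G F) ∩ (A ∪ nb G A)ᶜ = ∅ := by
      ext w
      simp only [co, Finset.mem_inter, Finset.mem_compl, Finset.mem_union, not_or,
        Finset.notMem_empty, iff_false]
      rintro ⟨⟨h1, h2⟩, h3, h4⟩
      rcases hall w with h | h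
      · rcases Finset.mem_union.1 h with h | h
        · exact h3 h
        · exact h1 h
      · have := s2 h
        simp only [Finset.mem_union, Finset.mem_sdiff] at this
        tauto
    have t1 := three_split (co G F) A (nb G A) (nb_disjoint G A)
    have t2 := three_split A F (nb G F) (nb_disjoint G F)
    have t3 := three_split (nb G A) F (nb G F) (nb_disjoint G F)
    rw [hcorner, Finset.card_empty] at t1
    have e4 : (F ∪ nb G F)ᶜ = co G F := rfl
    rw [e4] at t2 t3
    have e5 : ((A ∩ nb G F) ∪ (nb G A ∩ nb G F) ∪ (nb G A ∩ F)).card ≤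
        (A ∩ nb G F).card + (nb G A ∩ nb G F).card + (nb G A ∩ F).card :=
      (Finset.card_union_le _ _).trans (Nat.add_le_add_right (Finset.card_union_le _ _) _)
    have e6 : co G F ∩ A = A ∩ co G F := Finset.inter_comm _ _
    have e7 : co G F ∩ nb G A = nb G A ∩ co G F := Finset.inter_comm _ _
    have e8 : 0 < (A ∩ F).card := Finset.card_pos.2 hne
    rw [e6, e7] at t1
    omega

/-- Mader: in an `l`-critically `k`-connected (non-complete) graph each set of at most `l - 1`
vertices lies in the boundary of a fragment with at most `k / 2` vertices. -/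
lemma exists_small_fragment {G : SimpleGraph V} {k l : ℕ} (hk : KConn G k) (hc : Crit G k l)
    (S : Finset V) (hS : S.card + 1 ≤ l) :
    ∃ A, Frag G k A ∧ S ⊆ nb G A ∧ 2 * A.card ≤ k := by
  classical
  obtain ⟨F0, hF0, hSF0⟩ := hc S (by omega)
  obtain ⟨A, hAmem, hmin⟩ := Finset.exists_min_image
    (univ.filter (fun A : Finset V => Frag G k A ∧ S ⊆ nb G A)) Finset.card
    ⟨F0, by simp [hF0, hSF0]⟩
  simp only [Finset.mem_filter, Finset.mem_univ, true_and] at hAmem hmin
  obtain ⟨hA, hSA⟩ := hAmem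
  refine ⟨A, hA, hSA, ?_⟩
  have hmin' : ∀ B, Frag G k B → S ⊆ nb G B → A.card ≤ B.card := fun B h1 h2 => hmin B ⟨h1, h2⟩
  obtain ⟨a, haA⟩ := hA.1
  obtain ⟨F, hF, hXF⟩ := hc (insert a S) ((Finset.card_insert_le _ _).trans hS)
  have haF : a ∈ nb G F := hXF (Finset.mem_insert_self _ _)
  have hSF : S ⊆ nb G F := fun v hv => hXF (Finset.mem_insert_of_mem hv)
  obtain ⟨hFco, hFnb, hFcoco⟩ := hF.co hk
  have hE1 := atom_inter_empty hk hA hSA hmin' haA hF hSF haF
  have hE2 := atom_inter_empty hk hA hSA hmin' haA hFco (by rw [hFnb]; exact hSF)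
    (by rw [hFnb]; exact haF)
  have t2 := three_split A F (nb G F) (nb_disjoint G F)
  have e4 : (F ∪ nb G F)ᶜ = co G F := rfl
  rw [e4, hE1, hE2, Finset.card_empty] at t2
  -- general bound
  have gen : ∀ B, Frag G k B → S ⊆ nb G B → A ∩ B = ∅ → A.card = (A ∩ nb G B).card →
      A.card ≤ (nb G A ∩ B).card := by
    intro B hB hSB hAB hcard
    by_cases hne : (B ∩ co G A).Nonempty
    · -- use the boundary of this corner
      have s1 := nb_inter_subset G (co G A) B
      obtain ⟨hAco, hAnb, _⟩ := hA.co hk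
      rw [hAnb] at s1
      have ha1 : a ∉ co G A := by simp [co, haA]
      have ha2 : a ∉ nb G A := Finset.disjoint_left.1 (nb_disjoint G A) haA
      have k1 := hk (co G A ∩ B) (by rwa [Finset.inter_comm]) ⟨a, fun h => ha1 (Finset.mem_inter.1 h).1,
        fun h => by
          have := s1 h
          simp only [Finset.mem_union, Finset.mem_inter] at this
          tauto⟩
      have c1 := Finset.card_le_card s1
      have e5 : ((co G A ∩ nb G B) ∪ (nb G A ∩ nb G B) ∪ (nb G A ∩ B)).card ≤
          (co G A ∩ nb G B).card + (nb G A ∩ nb G B).card + (nb G A ∩ B).card :=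
        (Finset.card_union_le _ _).trans (Nat.add_le_add_right (Finset.card_union_le _ _) _)
      have t4 := three_split (nb G B) A (nb G A) (nb_disjoint G A)
      have e6 : (A ∪ nb G A)ᶜ = co G A := rfl
      have e7 : nb G B ∩ A = A ∩ nb G B := Finset.inter_comm _ _
      have e8 : nb G B ∩ nb G A = nb G A ∩ nb G B := Finset.inter_comm _ _
      have e9 : nb G B ∩ co G A = co G A ∩ nb G B := Finset.inter_comm _ _
      rw [e6, e7, e8, e9] at t4
      have := hB.2.2
      omega
    · rw [Finset.not_nonempty_iff_eq_empty] at hne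
      have t4 := three_split B A (nb G A) (nb_disjoint G A)
      have e6 : (A ∪ nb G A)ᶜ = co G A := rfl
      have e7 : B ∩ A = A ∩ B := Finset.inter_comm _ _
      have e8 : B ∩ nb G A = nb G A ∩ B := Finset.inter_comm _ _
      rw [e6, hne, e7, hAB, e8, Finset.card_empty] at t4
      have := hmin' B hB hSB
      omega
  have g1 := gen F hF hSF hE1 (by omega)
  have g2 := gen (co G F) hFco (by rw [hFnb]; exact hSF) hE2 (by rw [hFnb]; omega)
  have t3 := three_split (nb G A) F (nb G F) (nb_disjoint G F)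
  rw [e4] at t3
  have := hA.2.2
  omega

end Pool.Agent.Lib.MP_dae418_co
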