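import Pool.Agent.Lib.MP_dae418_co.Counting

set_option autoImplicit false

namespace Pool.Agent.Lib.MP_dae418_co

open Finset

lemma numeric (k g : ℕ) (hk : 1 ≤ k) (hg : g = Nat.sqrt k) :
    (((2 * k * (k / 2 / g + 1)) ^ (9 + 1) +
      (9 + 1) * ((k * (k / 2 + 1)) * (k + 2 * g * (k / 2 + 1)) ^ 9) : ℕ) : ℝ)
      ≤ 8 ^ 8 * (Real.sqrt k) ^ 31 := by
  set q := Real.sqrt (k : ℝ) with hq
  have hq2 : q ^ 2 = (k : ℝ) := Real.sq_sqrt (Nat.cast_nonneg k)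
  have hq0 : 0 ≤ q := Real.sqrt_nonneg _
  have hq1 : 1 ≤ q := by
    rw [hq, Real.one_le_sqrt]
    exact_mod_cast hk
  have hg1 : 1 ≤ g := by
    rw [hg, Nat.le_sqrt]
    simpa using hk
  have hgk : (g : ℝ) ≤ q := by
    apply Real.le_sqrt_of_sq_le
    have : g * g ≤ k := by rw [hg]; exact Nat.sqrt_le k
    have h2 : ((g * g : ℕ) : ℝ) ≤ (k : ℝ) := by exact_mod_cast this
    push_cast at h2
    nlinarith
  have hgk2 : q < (g : ℝ) + 1 := by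
    have h1 : k < (g + 1) * (g + 1) := by rw [hg]; exact Nat.lt_succ_sqrt k
    have h2 : (k : ℝ) < ((g : ℝ) + 1) * ((g : ℝ) + 1) := by exact_mod_cast h1
    by_contra hcon
    push Not at hcon
    have hg0 : (0 : ℝ) ≤ (g : ℝ) + 1 := by positivity
    nlinarith
  have hg1' : (1 : ℝ) ≤ g := by exact_mod_cast hg1
  have hghalf : q / 2 ≤ (g : ℝ) := by linarith
  have hgpos : (0 : ℝ) < g := by linarith
  -- the three bounds
  have hk2 : ((k / 2 : ℕ) : ℝ) ≤ q ^ 2 / 2 := by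
    have : ((k / 2 : ℕ) : ℝ) ≤ (k : ℝ) / 2 := Nat.cast_div_le
    rw [hq2]; exact this
  have hdiv : ((k / 2 / g : ℕ) : ℝ) ≤ q := by
    have h1 : ((k / 2 / g : ℕ) : ℝ) ≤ ((k / 2 : ℕ) : ℝ) / (g : ℝ) := Nat.cast_div_le
    refine h1.trans ?_
    rw [div_le_iff₀ hgpos]
    nlinarith
  have hb : ((2 * k * (k / 2 / g + 1) : ℕ) : ℝ) ≤ 4 * q ^ 3 := by
    push_cast
    rw [← hq2]
    have : (2 : ℝ) * q ^ 2 * (((k / 2 / g : ℕ) : ℝ) + 1) ≤ 2 * q ^ 2 * (q + q) := by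
      apply mul_le_mul_of_nonneg_left _ (by positivity)
      linarith
    calc _ ≤ (2 : ℝ) * q ^ 2 * (q + q) := by exact_mod_cast this
      _ = 4 * q ^ 3 := by ring
  have hr : ((k * (k / 2 + 1) : ℕ) : ℝ) ≤ 2 * q ^ 4 := by
    push_cast
    rw [← hq2]
    have h1 : (1 : ℝ) ≤ q ^ 2 := one_le_pow₀ hq1
    have : q ^ 2 * (((k / 2 : ℕ) : ℝ) + 1) ≤ q ^ 2 * (2 * q ^ 2) := by
      apply mul_le_mul_of_nonneg_left _ (by positivity)
      linarith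
    calc _ ≤ q ^ 2 * (2 * q ^ 2) := by exact_mod_cast this
      _ = 2 * q ^ 4 := by ring
  have hc : ((k + 2 * g * (k / 2 + 1) : ℕ) : ℝ) ≤ 4 * q ^ 3 := by
    push_cast
    rw [← hq2]
    have h1 : (1 : ℝ) ≤ q ^ 2 := one_le_pow₀ hq1
    have h2 : 2 * (g : ℝ) * (((k / 2 : ℕ) : ℝ) + 1) ≤ 2 * q * (q ^ 2 / 2 + 1) := by
      apply mul_le_mul (by linarith) (by linarith) (by positivity) (by positivity)
    have h3 : q ^ 2 + 2 * q * (q ^ 2 / 2 + 1) ≤ 4 * q ^ 3 := by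
      nlinarith [mul_nonneg hq0 hq0, mul_nonneg (sub_nonneg.2 hq1) hq0,
        mul_nonneg (mul_nonneg (sub_nonneg.2 hq1) hq0) hq0,
        mul_nonneg (mul_nonneg (sub_nonneg.2 hq1) (sub_nonneg.2 hq1)) hq0]
    calc _ ≤ q ^ 2 + 2 * q * (q ^ 2 / 2 + 1) := by
            have := add_le_add_left h2 (q ^ 2)
            simpa [add_comm] using this
      _ ≤ _ := h3
  have h31 : q ^ 30 ≤ q ^ 31 := pow_le_pow_right₀ hq1 (by norm_num)
  have e1 : (((2 * k * (k / 2 / g + 1)) ^ (9 + 1) : ℕ) : ℝ) ≤ (4 * q ^ 3) ^ 10 := by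
    rw [Nat.cast_pow]
    exact pow_le_pow_left₀ (Nat.cast_nonneg _) hb _
  have e2 : ((((k + 2 * g * (k / 2 + 1)) ^ 9 : ℕ)) : ℝ) ≤ (4 * q ^ 3) ^ 9 := by
    rw [Nat.cast_pow]
    exact pow_le_pow_left₀ (Nat.cast_nonneg _) hc _
  have e3 : (((k * (k / 2 + 1)) * (k + 2 * g * (k / 2 + 1)) ^ 9 : ℕ) : ℝ)
      ≤ 2 * q ^ 4 * (4 * q ^ 3) ^ 9 := by
    rw [Nat.cast_mul]
    exact mul_le_mul hr e2 (Nat.cast_nonneg _) (by positivity)
  rw [Nat.cast_add, Nat.cast_mul (9 + 1)]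
  calc _ ≤ (4 * q ^ 3) ^ 10 + ((9 + 1 : ℕ) : ℝ) * (2 * q ^ 4 * (4 * q ^ 3) ^ 9) := by
        apply add_le_add e1
        exact mul_le_mul_of_nonneg_left e3 (Nat.cast_nonneg _)
    _ = 4 ^ 10 * q ^ 30 + 20 * 4 ^ 9 * q ^ 31 := by push_cast; ring
    _ ≤ 4 ^ 10 * q ^ 31 + 20 * 4 ^ 9 * q ^ 31 := by
        have := mul_le_mul_of_nonneg_left h31 (by norm_num : (0 : ℝ) ≤ 4 ^ 10)
        linarith
    _ ≤ 8 ^ 8 * q ^ 31 := by
        have h0 : 0 ≤ q ^ 31 := by positivity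
        nlinarith

variable {V : Type*} [Fintype V] [DecidableEq V]

/-- The order of an 11-critically `k`-connected non-complete graph. -/
theorem order_bound {G : SimpleGraph V} {k : ℕ} (hk1 : 1 ≤ k) (hk : KConn G k)
    (hc : Crit G k 11) : (Fintype.card V : ℝ) ≤ 8 * (k : ℝ) ^ (31 / 16 : ℝ) := by
  classical
  rcases Nat.eq_zero_or_pos (Fintype.card V) with h0 | hpos
  · rw [h0]
    push_cast
    positivity
  set g := Nat.sqrt k with hg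
  have hg1 : 0 < g := by
    have : 1 ≤ g := by
      rw [hg, Nat.le_sqrt]
      simpa using hk1
    exact this
  set N := (2 * k * (k / 2 / g + 1)) ^ (9 + 1) +
      (9 + 1) * ((k * (k / 2 + 1)) * (k + 2 * g * (k / 2 + 1)) ^ 9) with hN
  have h1 := pigeonhole (m := 10) hk hc (by norm_num) N (fun t z => by
    exact card_tup_le (g := g) 9 _ _ _ (card_bad_le hk hg1) (card_rr_le hk)
      (fun x hx hgood => card_yy_le hk hx hgood))
  have h2 : Fintype.card V ^ 8 ≤ N := by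
    have h3 : Fintype.card V * Fintype.card V * Fintype.card V ^ 8
        ≤ Fintype.card V * Fintype.card V * N := by
      calc _ = Fintype.card V ^ 10 := by ring
        _ ≤ _ := h1
    exact Nat.le_of_mul_le_mul_left h3 (Nat.mul_pos hpos hpos)
  have h3 : ((Fintype.card V : ℕ) : ℝ) ^ 8 ≤ 8 ^ 8 * (Real.sqrt k) ^ 31 := by
    have h4 : ((Fintype.card V ^ 8 : ℕ) : ℝ) ≤ (N : ℝ) := by exact_mod_cast h2
    rw [Nat.cast_pow] at h4
    exact h4.trans (numeric k g hk1 hg)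
  have h4 : (8 * (k : ℝ) ^ (31 / 16 : ℝ)) ^ 8 = 8 ^ 8 * (Real.sqrt k) ^ 31 := by
    rw [mul_pow, Real.sqrt_eq_rpow, ← Real.rpow_natCast ((k : ℝ) ^ (31 / 16 : ℝ)),
      ← Real.rpow_natCast ((k : ℝ) ^ (1 / 2 : ℝ)), ← Real.rpow_mul (Nat.cast_nonneg k),
      ← Real.rpow_mul (Nat.cast_nonneg k)]
    norm_num
  by_contra hcon
  push Not at hcon
  have h5 : (8 * (k : ℝ) ^ (31 / 16 : ℝ)) ^ 8 < ((Fintype.card V : ℕ) : ℝ) ^ 8 :=
    pow_lt_pow_left₀ hcon (by positivity) (by norm_num)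
  rw [h4] at h5
  linarith

end Pool.Agent.Lib.MP_dae418_co
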