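import Pool.Agent.Lib.MP_dae418_co.Numeric

set_option autoImplicit false

namespace Pool.Agent.Lib.MP_dae418_co

open Finset

variable {V : Type*} [Fintype V] [DecidableEq V]

/-- From connectivity of all vertex-deleted subgraphs to the boundary form. -/
lemma kconn_of {G : SimpleGraph V} {k : ℕ}
    (h : ∀ S : Finset V, S.card < k → (G.induce (↑(Sᶜ) : Set V)).Connected) : KConn G k := by
  intro F hF hz
  obtain ⟨f, hf⟩ := hF
  obtain ⟨z, hz1, hz2⟩ := hz
  by_contra hcon
  push Not at hcon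
  have hconn := h (nb G F) hcon
  have hf' : f ∈ (↑((nb G F)ᶜ) : Set V) := by
    simp only [Finset.coe_compl, Set.mem_compl_iff, Finset.mem_coe]
    exact Finset.disjoint_left.1 (nb_disjoint G F) hf
  have hz' : z ∈ (↑((nb G F)ᶜ) : Set V) := by
    simpa only [Finset.coe_compl, Set.mem_compl_iff, Finset.mem_coe] using hz2
  obtain ⟨w⟩ := hconn.preconnected ⟨f, hf'⟩ ⟨z, hz'⟩
  have key : ∀ (a b : ((↑((nb G F)ᶜ) : Set V) : Type _)),
      (G.induce (↑((nb G F)ᶜ) : Set V)).Walk a b → (a : V) ∈ F → (b : V) ∈ F := by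
    intro a b w
    induction w with
    | nil => exact id
    | @cons u v w' hadj p ih =>
      intro hu
      apply ih
      by_contra hv
      have h1 : (v : V) ∈ nb G F := mem_nb.2 ⟨hv, u, hu, hadj⟩
      have h2 := v.2
      simp only [Finset.coe_compl, Set.mem_compl_iff, Finset.mem_coe] at h2
      exact h2 h1
  exact hz1 (key _ _ w hf)

/-- A disconnecting set of size at most `k` is the boundary of a fragment. -/
lemma frag_of {G : SimpleGraph V} {k : ℕ} (hk : KConn G k) {T : Finset V} (hT : T.card ≤ k)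
    (hV : k < Fintype.card V) (hnot : ¬ (G.induce (↑(Tᶜ) : Set V)).Connected) :
    ∃ F, Frag G k F ∧ nb G F = T := by
  classical
  have hne : (Tᶜ).Nonempty := by
    rw [← Finset.card_pos, Finset.card_compl]
    omega
  obtain ⟨u0, hu0⟩ := hne
  have hnonempty : Nonempty ((↑(Tᶜ) : Set V) : Type _) := ⟨⟨u0, hu0⟩⟩
  have hnp : ¬ (G.induce (↑(Tᶜ) : Set V)).Preconnected := fun hp =>
    hnot (by have := hnonempty; exact SimpleGraph.Connected.mk hp)
  unfold SimpleGraph.Preconnected at hnp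
  push Not at hnp
  obtain ⟨u, v, huv⟩ := hnp
  let F : Finset V := univ.filter (fun w => ∃ hw : w ∈ (↑(Tᶜ) : Set V),
    (G.induce (↑(Tᶜ) : Set V)).Reachable u ⟨w, hw⟩)
  have hmemF : ∀ w, w ∈ F ↔ ∃ hw : w ∈ (↑(Tᶜ) : Set V),
    (G.induce (↑(Tᶜ) : Set V)).Reachable u ⟨w, hw⟩ := by
    intro w
    simp only [F, Finset.mem_filter, Finset.mem_univ, true_and]
  have hsub : nb G F ⊆ T := by
    intro w hw
    obtain ⟨h1, a, ha, hadj⟩ := mem_nb.1 hw
    by_contra hwT
    apply h1
    obtain ⟨haT, hreach⟩ := (hmemF a).1 ha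
    have hwT' : w ∈ (↑(Tᶜ) : Set V) := by
      simpa only [Finset.coe_compl, Set.mem_compl_iff, Finset.mem_coe] using hwT
    refine (hmemF w).2 ⟨hwT', hreach.trans ?_⟩
    apply SimpleGraph.Adj.reachable
    exact hadj
  have huF : (u : V) ∈ F := (hmemF _).2 ⟨u.2, SimpleGraph.Reachable.refl _⟩
  have hvT : (v : V) ∉ T := by
    have := v.2
    simpa only [Finset.coe_compl, Set.mem_compl_iff, Finset.mem_coe] using this
  have hvF : (v : V) ∉ F := by
    intro h
    obtain ⟨_, h2⟩ := (hmemF _).1 h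
    exact huv h2
  have h1 := hk F ⟨u, huF⟩ ⟨v, hvF, fun h => hvT (hsub h)⟩
  have e : nb G F = T := Finset.eq_of_subset_of_card_le hsub (by omega)
  exact ⟨F, ⟨⟨u, huF⟩, ⟨v, hvF, fun h => hvT (hsub h)⟩, by rw [e] at h1 ⊢; omega⟩, e⟩

/-- The final bound under the hypothesis in its original form, for `l = 11`. -/
theorem final {k : ℕ} (G : SimpleGraph V)
    (h : ∀ X : Finset V, X.card ≤ 11 →
          X.card ≤ k ∧
          (k - X.card < (Xᶜ).card ∧
            ∀ S : Finset V, S ⊆ Xᶜ → S.card < k - X.card →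
              (G.induce (↑((X ∪ S)ᶜ) : Set V)).Connected) ∧
          ¬ (k - X.card + 1 < (Xᶜ).card ∧
            ∀ S : Finset V, S ⊆ Xᶜ → S.card < k - X.card + 1 →
              (G.induce (↑((X ∪ S)ᶜ) : Set V)).Connected)) :
    (Fintype.card V : ℝ) ≤ 8 * (k : ℝ) ^ (31 / 16 : ℝ) := by
  classical
  have h0 := h ∅ (by simp)
  simp only [Finset.card_empty, Nat.sub_zero, Finset.compl_empty, Finset.card_univ,
    Finset.subset_univ, true_implies, Nat.zero_le, true_and] at h0
  obtain ⟨⟨hVk, hconn⟩, _⟩ := h0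
  have hpos : 0 < Fintype.card V := by omega
  obtain ⟨v0⟩ : Nonempty V := Fintype.card_pos_iff.1 hpos
  have hk1 : 1 ≤ k := by
    have := (h {v0} (by simp)).1
    simpa using this
  have hkc : KConn G k := kconn_of (fun S hS => by
    have h1 := hconn S hS
    rwa [Finset.empty_union] at h1)
  by_cases hV : Fintype.card V ≤ k + 1
  · have hkr : (1 : ℝ) ≤ (k : ℝ) := by exact_mod_cast hk1
    have h1 : (Fintype.card V : ℝ) ≤ (k : ℝ) + 1 := by exact_mod_cast hV
    have h2 : (k : ℝ) ≤ (k : ℝ) ^ (31 / 16 : ℝ) := by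
      calc (k : ℝ) = (k : ℝ) ^ (1 : ℝ) := (Real.rpow_one _).symm
        _ ≤ _ := Real.rpow_le_rpow_of_exponent_le hkr (by norm_num)
    linarith
  · push Not at hV
    refine order_bound hk1 hkc ?_
    intro X hX
    obtain ⟨hXk, _, hnot⟩ := h X hX
    have hcc : (Xᶜ).card = Fintype.card V - X.card := Finset.card_compl X
    have hXV : X.card ≤ Fintype.card V := Finset.card_le_univ X
    have h1 : k - X.card + 1 < (Xᶜ).card := by omega
    have h2 : ¬ ∀ S : Finset V, S ⊆ Xᶜ → S.card < k - X.card + 1 →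
        (G.induce (↑((X ∪ S)ᶜ) : Set V)).Connected := fun hall => hnot ⟨h1, hall⟩
    push Not at h2
    obtain ⟨S, _, hS2, hS3⟩ := h2
    have hcard : (X ∪ S).card ≤ k := by
      have := Finset.card_union_le X S
      omega
    obtain ⟨F, hF, hFT⟩ := frag_of hkc hcard (by omega) hS3
    exact ⟨F, hF, by rw [hFT]; exact Finset.subset_union_left⟩

end Pool.Agent.Lib.MP_dae418_co
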